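import Pool.Agent.Q58.CI.Corr

/-!
Varieties which correspond to a variety with canonical forms, defined by forms of small degree.
-/

set_option autoImplicit false
set_option linter.overlappingInstances false
set_option linter.unusedSectionVars false

open FF Pool.Agent.Y184.NT
open Pool.Agent.W602.GT hiding lin
open Pool.Agent.Q58.FI

namespace Pool.Agent.Q58.CI

/-- The variety with the homogeneous generic point `y` is set-theoretically the intersection of
hypersurfaces of degree at most `e`. -/
def CutBy {M : Type} [Field M] [Algebra ℂ M] {n : ℕ} (e : ℕ) (y : Fin (n + 1) → M) : Prop :=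
  ∀ z : Fin (n + 1) → ℂ, z ≠ 0 →
    (∀ (G : MvPolynomial (Fin (n + 1)) ℂ) (e' : ℕ), e' ≤ e → G.IsHomogeneous e' →
      MvPolynomial.aeval y G = 0 → MvPolynomial.eval z G = 0) →
    ∀ (G : MvPolynomial (Fin (n + 1)) ℂ) (e' : ℕ), G.IsHomogeneous e' →
      MvPolynomial.aeval y G = 0 → MvPolynomial.eval z G = 0

/-- Homogenization with respect to a variable. -/
theorem exists_hmg {n : ℕ} (F : MvPolynomial (Fin (n + 1)) ℂ) (j0 : Fin (n + 1)) :
    ∃ (G : MvPolynomial (Fin (n + 1)) ℂ) (e : ℕ), 0 < e ∧ G.IsHomogeneous e ∧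
      ∀ (R : Type) [CommRing R] [Algebra ℂ R] (v : Fin (n + 1) → R), v j0 = 1 →
        MvPolynomial.aeval v G = MvPolynomial.aeval v F := by
  refine ⟨∑ i ∈ Finset.range (F.totalDegree + 1),
    MvPolynomial.X j0 ^ (F.totalDegree + 1 - i) * MvPolynomial.homogeneousComponent i F,
    F.totalDegree + 1, Nat.succ_pos _, ?_, ?_⟩
  · refine MvPolynomial.IsHomogeneous.sum _ _ _ fun i hi => ?_
    have h1 := ((MvPolynomial.isHomogeneous_X ℂ j0).pow (F.totalDegree + 1 - i)).mul
      (MvPolynomial.homogeneousComponent_isHomogeneous i F)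
    rw [Finset.mem_range] at hi
    have h2 : 1 * (F.totalDegree + 1 - i) + i = F.totalDegree + 1 := by omega
    rwa [h2] at h1
  · intro R _ _ v hv
    conv_rhs => rw [← MvPolynomial.sum_homogeneousComponent F]
    rw [map_sum, map_sum]
    refine Finset.sum_congr rfl fun i _ => ?_
    rw [map_mul, map_pow, MvPolynomial.aeval_X, hv, one_pow, one_mul]

/-- There are no lines through the conjugates of a point of a variety which is cut out by forms
of small degree. -/
theorem line_any {M L E : Type} [Field M] [Field L] [Field E] [Algebra ℂ M] [Algebra ℂ L]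
    [Algebra ℂ E] [Algebra M E] [Algebra L E] [IsScalarTower ℂ M E] [IsScalarTower ℂ L E]
    [FiniteDimensional L E] [Algebra.EssFiniteType ℂ M] {n w l N : ℕ}
    (hM : Algebra.trdeg ℂ M = w) (hL : Algebra.trdeg ℂ L = l)
    {y : Fin (n + 1) → M} {j0 : Fin (n + 1)} (hy1 : y j0 = 1)
    (hgen : IntermediateField.adjoin ℂ (Set.range y) = ⊤)
    {ω : (Fin w → Derivation ℂ M M) → M} (hω : IsPluri 1 ω) (hω0 : ∃ D, ω D ≠ 0)
    (hreg : ∀ P : Place ℂ M, Divisorial w P → RegAt P ω)
    (hcut : CutBy (N + 1) y) {a b : Fin (n + 1) → L} {τ : E}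
    (hlin : LinearIndependent L ![a, b])
    (hab : ∀ j, algebraMap M E (y j) = algebraMap L E (a j) + τ * algebraMap L E (b j))
    (hN : N + 2 ≤ (minpoly L τ).natDegree) : False := by
  classical
  have hb : b ≠ 0 := by
    have h1 := hlin.ne_zero 1
    simpa using h1
  have hτL : ∀ c : L, algebraMap L E c ≠ τ := by
    intro c hc
    have h1 : (minpoly L τ).natDegree = 1 := by
      rw [← hc, minpoly.eq_X_sub_C]
      exact Polynomial.natDegree_X_sub_C c
    omega
  have hb0 : b j0 = 0 := by
    by_contra hne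
    have hne' : algebraMap L E (b j0) ≠ 0 := by simpa using hne
    apply hτL ((1 - a j0) / b j0)
    have h1 := hab j0
    rw [hy1, map_one] at h1
    rw [map_div₀, map_sub, map_one, div_eq_iff hne', h1]
    ring
  have ha0 : a j0 = 1 := by
    have h1 := hab j0
    rw [hb0, map_zero, mul_zero, add_zero, hy1, map_one] at h1
    exact (map_eq_one_iff _ (algebraMap L E).injective).1 h1.symm
  obtain ⟨z, E0, hz, -⟩ := Pool.Agent.Y172.exists_crd (k := ℂ) (K := L) hL
  obtain ⟨F, hF, hR⟩ := nly t_NLG L E M w (n + 1) l hM z hz ω hω hreg hω0 y hgen a b τ hb hab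
  obtain ⟨G, e, he, hG, hGF⟩ := exists_hmg F j0
  have hGy : MvPolynomial.aeval y G = 0 := by rw [hGF M y hy1, hF]
  have hGR : restr G a b = restr F a b := hGF (Polynomial L) (lin a b) (by
    simp [lin, ha0, hb0])
  -- the small forms vanish on the line
  obtain ⟨S, hS⟩ : ∃ S : Set (MvPolynomial (Fin (n + 1)) ℂ),
    S = {H | ∃ e' ≤ N + 1, H.IsHomogeneous e' ∧ MvPolynomial.aeval y H = 0} := ⟨_, rfl⟩
  have hSR : ∀ H ∈ S, restr H a b = 0 := by
    intro H hH
    rw [hS] at hH
    obtain ⟨e', he', hHh, hHy⟩ := hH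
    refine restr_zero (x := fun j => algebraMap M E (y j)) hHh he' ?_ hab hN
    have h7 : MvPolynomial.aeval (fun j => algebraMap M E (y j)) H =
        algebraMap M E (MvPolynomial.aeval y H) := MvPolynomial.aeval_algebraMap_apply E y H
    rw [h7, hHy, map_zero]
  have hrad : G ∈ (Ideal.span S).radical := by
    rw [← MvPolynomial.vanishingIdeal_zeroLocus_eq_radical (K := ℂ),
      MvPolynomial.mem_vanishingIdeal_iff]
    intro v hv
    rw [MvPolynomial.mem_zeroLocus_iff] at hv
    rw [MvPolynomial.aeval_eq_eval]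
    by_cases hv0 : v = 0
    · have h1 : MvPolynomial.eval v G = MvPolynomial.coeff 0 G := by
        rw [hv0, MvPolynomial.eval_zero]
        rfl
      change MvPolynomial.eval v G = 0
      rw [h1]
      by_contra hne
      have h2 := hG hne
      rw [map_zero] at h2
      omega
    · refine hcut v hv0 (fun H e' he' hHh hHy => ?_) G e hG hGy
      have h1 := hv H (Ideal.subset_span (by
        rw [hS]
        exact ⟨e', he', hHh, hHy⟩))
      rwa [MvPolynomial.aeval_eq_eval] at h1
  obtain ⟨q, hq⟩ := Ideal.mem_radical_iff.1 hrad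
  have hker : Ideal.span S ≤ RingHom.ker (MvPolynomial.aeval (lin a b) :
      MvPolynomial (Fin (n + 1)) ℂ →ₐ[ℂ] Polynomial L).toRingHom := by
    rw [Ideal.span_le]
    intro H hH
    exact hSR H hH
  have h1 : restr (G ^ q) a b = 0 := hker hq
  have h2 : restr G a b ^ q = 0 := by
    rw [← h1]
    exact (map_pow (MvPolynomial.aeval (lin a b)) G q).symm
  have h3 : restr G a b = 0 := eq_zero_of_pow_eq_zero h2
  exact hR (hGR ▸ h3)

/-- Varieties which correspond to a variety with canonical forms. -/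
theorem corr_any {M L E : Type} [Field M] [Field L] [Field E] [Algebra ℂ M] [Algebra ℂ L]
    [Algebra ℂ E] [Algebra M E] [Algebra L E] [IsScalarTower ℂ M E] [IsScalarTower ℂ L E]
    [FiniteDimensional L E] [Algebra.EssFiniteType ℂ L] {n w N : ℕ} (hw : 1 ≤ w)
    (hM : Algebra.trdeg ℂ M = w) {y : Fin (n + 1) → M} {j0 : Fin (n + 1)} (hy1 : y j0 = 1)
    (hgen : IntermediateField.adjoin ℂ (Set.range y) = ⊤)
    {ω : (Fin w → Derivation ℂ M M) → M} (hω : IsPluri 1 ω) (hω0 : ∃ D, ω D ≠ 0)
    (hreg : ∀ (f : Fin N → Fin (n + 1)) (P : Place ℂ M), Divisorial w P →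
      RegAt P (fun D => (∏ k, y (f k)) * ω D))
    (halg : Algebra.IsAlgebraic M E) :
    (Module.finrank L E ≤ N → GeneralType ℂ L w) ∧
    (Module.finrank L E ≤ N + 1 ∨ (Module.finrank L E ≤ 2 * N + 1 ∧ CutBy (N + 1) y) →
      ∃ θ : (Fin w → Derivation ℂ L L) → L, IsPluri 1 θ ∧
        (∀ P : Place ℂ L, Divisorial w P → RegAt P θ) ∧ ∃ D, θ D ≠ 0) := by
  classical
  have hessM0 : Algebra.EssFiniteType ℂ M := by
    rw [← IntermediateField.fg_top_iff]
    exact ⟨Finset.univ.image y, by
      rw [Finset.coe_image, Finset.coe_univ, Set.image_univ, hgen]⟩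
  obtain ⟨E', hE'⟩ : ∃ E' : IntermediateField L E,
    E' = IntermediateField.adjoin L (Set.range fun j => algebraMap M E (y j)) := ⟨_, rfl⟩
  have hxE : ∀ j, algebraMap M E (y j) ∈ E' := fun j => by
    rw [hE']
    exact IntermediateField.subset_adjoin L _ ⟨j, rfl⟩
  have hle : ∀ z : M, algebraMap M E z ∈ E' := by
    have h1 : (⊤ : IntermediateField ℂ M) ≤
        (E'.restrictScalars ℂ).comap (IsScalarTower.toAlgHom ℂ M E) := by
      rw [← hgen, IntermediateField.adjoin_le_iff]
      rintro _ ⟨j, rfl⟩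
      exact hxE j
    exact fun z => h1 (IntermediateField.mem_top (x := z))
  let ι : M →+* E' :=
    { toFun := fun z => ⟨algebraMap M E z, hle z⟩
      map_one' := Subtype.ext (map_one _)
      map_zero' := Subtype.ext (map_zero _)
      map_mul' := fun _ _ => Subtype.ext (map_mul _ _ _)
      map_add' := fun _ _ => Subtype.ext (map_add _ _ _) }
  let _ : Algebra M E' := ι.toAlgebra
  have hst2 : IsScalarTower M E' E := IsScalarTower.of_algebraMap_eq fun c => rfl
  have hst : IsScalarTower ℂ M E' := IsScalarTower.of_algebraMap_eq fun c => by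
    apply Subtype.ext
    have h1 : ((algebraMap M E' (algebraMap ℂ M c) : E') : E) =
        algebraMap M E (algebraMap ℂ M c) := rfl
    rw [h1, ← IsScalarTower.algebraMap_apply]
    rfl
  have hfin1 : Module.finrank L E' ≤ Module.finrank L E :=
    (IntermediateField.finrank_le_of_le_right (le_top : E' ≤ ⊤)).trans
      (by rw [IntermediateField.finrank_top'])
  have hessE : Algebra.EssFiniteType ℂ E' := Algebra.EssFiniteType.comp ℂ L E'
  have hessM : Algebra.EssFiniteType M E' := Algebra.EssFiniteType.of_comp ℂ M E'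
  have halg' : Algebra.IsAlgebraic M E' := by
    refine ⟨fun z => ?_⟩
    have h1 := halg.isAlgebraic (z : E)
    exact (isAlgebraic_algebraMap_iff (A := E) (FaithfulSMul.algebraMap_injective E' E)).1 h1
  have hfd : FiniteDimensional M E' := Algebra.finite_of_essFiniteType_of_isAlgebraic
  have htrL : Algebra.trdeg ℂ L = w := by
    rw [← Pool.Agent.TH466.QG.trdeg_alg (k := ℂ) (E := L) (K := E'),
      Pool.Agent.TH466.QG.trdeg_alg (k := ℂ) (E := M) (K := E'), hM]
  have hgenL : IntermediateField.adjoin L (Set.range fun j => algebraMap M E' (y j)) = ⊤ := by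
    subst hE'
    apply IntermediateField.lift_injective
    rw [IntermediateField.lift_adjoin, IntermediateField.lift_top]
    congr 1
    ext z
    constructor
    · rintro ⟨_, ⟨j, rfl⟩, rfl⟩
      exact ⟨j, rfl⟩
    · rintro ⟨j, rfl⟩
      exact ⟨algebraMap M _ (y j), ⟨j, rfl⟩, rfl⟩
  have hreg1 : ∀ P : Place ℂ M, Divisorial w P → RegAt P ω := by
    intro P hP
    have h1 := hreg (fun _ => j0) P hP
    simp only [hy1, Finset.prod_const_one, one_mul] at h1
    exact h1
  refine ⟨fun hr => (Pool.Agent.Y184.NT.dom (M := M) (K := E') (L := L) t_NLG hw hM hy1 hgen hω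
    hω0 hreg hgenL).2 (hfin1.trans hr), fun hr => ?_⟩
  refine dom2 (M := M) (K := E') (L := L) hM hy1 hω hω0 hreg hgenL (by omega) ?_
  intro hN a b τ hab hτ hlin
  rcases hr with hr | ⟨-, hcut⟩
  · omega
  have h1 : minpoly L (τ : E) = minpoly L τ :=
    minpoly.algebraMap_eq (B := E') (B' := E) Subtype.val_injective τ
  refine line_any (E := E) hM htrL hy1 hgen hω hω0 hreg1 hcut hlin (τ := (τ : E)) (fun j => ?_) ?_
  · exact congrArg Subtype.val (hab j)
  · rw [h1, (Field.primitive_element_iff_minpoly_natDegree_eq L τ).1 hτ]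
    exact hN

end Pool.Agent.Q58.CI
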