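import Pool.Agent.Q58.CI.Form
import Pool.Agent.Q58.FI.Corr

/-!
Varieties which correspond to smooth complete intersections.
-/

set_option autoImplicit false
set_option linter.overlappingInstances false
set_option linter.unusedSectionVars false

open FF Pool.Agent.Y184.NT
open Pool.Agent.W602.GT hiding lin
open Pool.Agent.Q58.FI

namespace Pool.Agent.Q58.CI

/-- There are no lines on varieties whose subvarieties of large dimension have canonical forms. -/
theorem no_line_core {n w : ℕ}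
    {L : Type} [Field L] [Algebra ℂ L] [Algebra.EssFiniteType ℂ L] {a b : Fin (n + 1) → L}
    {l : ℕ} (htrL : Algebra.trdeg ℂ L = l)
    {c0 : Fin (n + 1)} (ha : a c0 = 1) (hbc : b c0 = 0) (hb : b ≠ 0)
    {s : Fin w → Fin (n + 1)}
    (hs : AlgebraicIndependent ℂ fun i => io (lin a b (s i)))
    (hform : ∀ (M0 : IntermediateField ℂ (RatFunc L)) (w1 : ℕ) (y0 : Fin (n + 1) → M0), w ≤ w1 →
      y0 c0 = 1 → IntermediateField.adjoin ℂ (Set.range y0) = ⊤ → Algebra.trdeg ℂ M0 = w1 →
      (∀ p, restr p a b = 0 → MvPolynomial.aeval y0 p = 0) →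
      ∃ ω : (Fin w1 → Derivation ℂ M0 M0) → M0, IsPluri 1 ω ∧ (∃ D, ω D ≠ 0) ∧
        ∀ P : Place ℂ M0, Divisorial w1 P → RegAt P ω) : False := by
  classical
  obtain ⟨y, hy⟩ : ∃ y : Fin (n + 1) → RatFunc L, y = fun j => io (lin a b j) := ⟨_, rfl⟩
  have hy1 : y c0 = 1 := by
    rw [hy]
    simp [io, lin, ha, hbc]
  obtain ⟨M0, hM0⟩ : ∃ M0 : IntermediateField ℂ (RatFunc L),
    M0 = IntermediateField.adjoin ℂ (Set.range y) := ⟨_, rfl⟩
  have hyM : ∀ j, y j ∈ M0 := fun j => by
    rw [hM0]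
    exact IntermediateField.subset_adjoin ℂ _ ⟨j, rfl⟩
  obtain ⟨y0, hy0⟩ : ∃ y0 : Fin (n + 1) → M0, ∀ j, (y0 j : RatFunc L) = y j :=
    ⟨fun j => ⟨y j, hyM j⟩, fun _ => rfl⟩
  have hessM0 : Algebra.EssFiniteType ℂ M0 := by
    rw [hM0, IntermediateField.essFiniteType_iff]
    exact ⟨Finset.univ.image y, by
      rw [Finset.coe_image, Finset.coe_univ, Set.image_univ]⟩
  have hy01 : y0 c0 = 1 := Subtype.ext (by rw [hy0, hy1]; rfl)
  have hgen0 : IntermediateField.adjoin ℂ (Set.range y0) = ⊤ := by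
    subst hM0
    apply IntermediateField.lift_injective
    rw [IntermediateField.lift_adjoin, IntermediateField.lift_top]
    congr 1
    ext z
    constructor
    · rintro ⟨_, ⟨j, rfl⟩, rfl⟩
      exact ⟨j, (hy0 j).symm⟩
    · rintro ⟨j, rfl⟩
      exact ⟨y0 j, ⟨j, rfl⟩, hy0 j⟩
  obtain ⟨w1, hw1⟩ : ∃ w1 : ℕ, Algebra.trdeg ℂ M0 = w1 := by
    have h1 : Algebra.trdeg ℂ M0 < Cardinal.aleph0 := _root_.trdeg_lt_aleph0 ℂ M0
    obtain ⟨w', hw'⟩ := Cardinal.lt_aleph0.1 h1
    exact ⟨w', hw'⟩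
  have hww : w ≤ w1 := by
    have h1 : AlgebraicIndependent ℂ fun i => y0 (s i) := by
      have h2 : AlgebraicIndependent ℂ (fun i => M0.val (y0 (s i))) := by
        have h3 : (fun i => M0.val (y0 (s i))) = fun i => io (lin a b (s i)) := by
          funext i
          have h4 : M0.val (y0 (s i)) = y (s i) := hy0 (s i)
          rw [h4, hy]
        rw [h3]
        exact hs
      exact AlgebraicIndependent.of_comp M0.val h2
    have h2 := h1.lift_cardinalMk_le_trdeg
    rw [hw1] at h2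
    simpa using h2
  obtain ⟨ω, hω, hω0, hreg⟩ := hform M0 w1 y0 hww hy01 hgen0 hw1 (by
    intro p h0
    apply Subtype.ext
    have h2 : ((MvPolynomial.aeval y0 p : M0) : RatFunc L) =
        MvPolynomial.aeval (fun j => (y0 j : RatFunc L)) p :=
      MvPolynomial.comp_aeval_apply (φ := M0.val) y0 p
    rw [h2, funext hy0, hy, ← io_restr, h0]
    exact map_zero _)
  obtain ⟨z, EM, hz, hEM⟩ := Pool.Agent.Y172.exists_crd (k := ℂ) (K := L) htrL
  obtain ⟨j, hj⟩ := Function.ne_iff.1 hb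
  have hj' : b j ≠ 0 := hj
  obtain ⟨c, hc⟩ := t_NLG M0 L w1 l hw1 z hz ω hω hreg hω0 M0.val (y0 j)
  have h3 : M0.val (y0 j) = y j := hy0 j
  rw [h3, hy] at hc
  simp only at hc
  rw [← io_C] at hc
  have h4 : lin a b j = Polynomial.C c := IsFractionRing.injective (Polynomial L) (RatFunc L) hc
  have h5 := congrArg (fun p => Polynomial.coeff p 1) h4
  apply hj'
  simpa [Pool.Agent.Y184.NT.lin] using h5

/-- Varieties which correspond to a variety with canonical forms. -/
theorem core {n w N : ℕ} (hw : 1 ≤ w) {L E : Type} [Field L] [Field E] [Algebra ℂ L]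
    [Algebra ℂ E] [Algebra L E] [IsScalarTower ℂ L E] [FiniteDimensional L E]
    [Algebra.EssFiniteType ℂ L] (htr : Algebra.trdeg ℂ L = w) {x : Fin (n + 1) → E} (hx : x ≠ 0)
    (halg : Algebra.IsAlgebraic (coords ℂ x) E)
    (hform : ∀ (M0 : IntermediateField ℂ E) (u0 : Fin (n + 1) → M0) (j0 : Fin (n + 1)) (c : E),
      c ≠ 0 → (∀ j, (u0 j : E) = c * x j) → u0 j0 = 1 →
      IntermediateField.adjoin ℂ (Set.range u0) = ⊤ → Algebra.trdeg ℂ M0 = w →
      ∃ ω : (Fin w → Derivation ℂ M0 M0) → M0, IsPluri 1 ω ∧ (∃ D, ω D ≠ 0) ∧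
        ∀ (f : Fin N → Fin (n + 1)) (P : Place ℂ M0), Divisorial w P →
          RegAt P (fun D => (∏ k, u0 (f k)) * ω D))
    (hline : ∀ (a b : Fin (n + 1) → L) (τ : E) (j0 : Fin (n + 1)) (c : E) (s : Fin w → Fin (n + 1)),
      c ≠ 0 → (∀ j, c * x j = algebraMap L E (a j) + τ * algebraMap L E (b j)) → a j0 = 1 →
      b j0 = 0 → b ≠ 0 → AlgebraicIndependent ℂ (fun i => io (lin a b (s i))) →
      N + 2 ≤ (minpoly L τ).natDegree → False) :
    (Module.finrank L E ≤ N → GeneralType ℂ L w) ∧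
    (Module.finrank L E ≤ 2 * N + 1 →
      ∃ θ : (Fin w → Derivation ℂ L L) → L, IsPluri 1 θ ∧
        (∀ P : Place ℂ L, Divisorial w P → RegAt P θ) ∧ ∃ D, θ D ≠ 0) := by
  classical
  obtain ⟨j0, hj0⟩ := Function.ne_iff.1 hx
  have hj0' : x j0 ≠ 0 := hj0
  obtain ⟨u, hu⟩ : ∃ u : Fin (n + 1) → E, u = fun j => (x j0)⁻¹ * x j := ⟨_, rfl⟩
  have hu1 : u j0 = 1 := by
    rw [hu]
    exact inv_mul_cancel₀ hj0'
  obtain ⟨M0, hM0⟩ : ∃ M0 : IntermediateField ℂ E,
    M0 = IntermediateField.adjoin ℂ (Set.range u) := ⟨_, rfl⟩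
  have huM : ∀ j, u j ∈ M0 := fun j => by
    rw [hM0]
    exact IntermediateField.subset_adjoin ℂ _ ⟨j, rfl⟩
  have hco : coords ℂ x ≤ M0 := by
    unfold coords
    rw [IntermediateField.adjoin_le_iff]
    rintro _ ⟨i, j, hj, rfl⟩
    have h2 : x i / x j = u i / u j := by
      rw [hu]
      simp only
      rw [mul_div_mul_left _ _ (inv_ne_zero hj0')]
    rw [h2]
    exact div_mem (huM i) (huM j)
  have halgM : Algebra.IsAlgebraic M0 E := by
    refine ⟨fun y => ?_⟩
    exact Pool.Agent.TH145.MF.alg_mono (F1 := (coords ℂ x).toSubfield)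
      (F2 := M0.toSubfield) (fun z hz => hco hz) (halg.isAlgebraic y)
  obtain ⟨u0, hu0⟩ : ∃ u0 : Fin (n + 1) → M0, ∀ j, (u0 j : E) = u j :=
    ⟨fun j => ⟨u j, huM j⟩, fun _ => rfl⟩
  have htrE : Algebra.trdeg ℂ E = w := by
    rw [Pool.Agent.TH466.QG.trdeg_alg (k := ℂ) (E := L) (K := E), htr]
  have htrM : Algebra.trdeg ℂ M0 = w := by
    rw [← Pool.Agent.TH466.QG.trdeg_alg (k := ℂ) (E := M0) (K := E), htrE]
  have hu01 : u0 j0 = 1 := Subtype.ext (by rw [hu0, hu1]; rfl)
  have hgen0 : IntermediateField.adjoin ℂ (Set.range u0) = ⊤ := by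
    subst hM0
    apply IntermediateField.lift_injective
    rw [IntermediateField.lift_adjoin, IntermediateField.lift_top]
    congr 1
    ext y
    constructor
    · rintro ⟨_, ⟨j, rfl⟩, rfl⟩
      exact ⟨j, (hu0 j).symm⟩
    · rintro ⟨j, rfl⟩
      exact ⟨u0 j, ⟨j, rfl⟩, hu0 j⟩
  have hcoA : Algebra.IsAlgebraic (coords ℂ u0) M0 := by
    rw [coords_top hu01 hgen0]
    infer_instance
  have hu0c : ∀ j, (u0 j : E) = (x j0)⁻¹ * x j := fun j => by rw [hu0, hu]
  obtain ⟨ω, hω, hω0, hreg⟩ := hform M0 u0 j0 (x j0)⁻¹ (inv_ne_zero hj0') hu0c hu01 hgen0 htrM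
  refine ⟨fun hr => gt_of_point hw htr hu1 hM0 halgM hu0 hω hω0 hreg hr, fun hr => ?_⟩
  refine pg_of_point htr hu1 hM0 halgM hu0 hω hω0 hreg hr ?_
  intro a b τ hlin hab hN
  have hb : b ≠ 0 := by
    have h1 := hlin.ne_zero 1
    simpa using h1
  have hτL : ∀ c : L, algebraMap L E c ≠ τ := by
    intro c hc
    have h1 : (minpoly L τ).natDegree = 1 := by
      rw [← hc, minpoly.eq_X_sub_C]
      exact Polynomial.natDegree_X_sub_C c
    omega
  have hb0 : b j0 = 0 := by
    by_contra hne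
    have hne' : algebraMap L E (b j0) ≠ 0 := by simpa using hne
    apply hτL ((1 - a j0) / b j0)
    rw [map_div₀, map_sub, map_one, div_eq_iff hne', ← hu1, hab j0]
    ring
  have ha0 : a j0 = 1 := by
    have h1 := hab j0
    rw [hb0, map_zero, mul_zero, add_zero, hu1] at h1
    exact (map_eq_one_iff _ (algebraMap L E).injective).1 h1.symm
  obtain ⟨s, hs⟩ := Pool.Agent.TH145.GF.exists_coord_basis htrM hcoA
  refine hline a b τ j0 (x j0)⁻¹ s (inv_ne_zero hj0') (fun j => ?_) ha0 hb0 hb ?_ hN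
  · rw [← hab j, hu]
  · rw [algebraicIndependent_iff]
    intro G hG
    have h1 : restr (MvPolynomial.rename s G) a b = 0 := by
      apply io_inj
      have h8 : io (0 : Polynomial L) = 0 := map_zero _
      rw [h8]
      have h2 := io_restr (MvPolynomial.rename s G) a b
      rw [MvPolynomial.aeval_rename] at h2
      exact h2.trans hG
    have h3 : MvPolynomial.aeval u (MvPolynomial.rename s G) = 0 := by
      have h5 := MvPolynomial.comp_aeval_apply
        (φ := (Polynomial.aeval τ : Polynomial L →ₐ[L] E).restrictScalars ℂ) (lin a b)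
        (MvPolynomial.rename s G)
      have h6 : (fun j => (Polynomial.aeval τ : Polynomial L →ₐ[L] E).restrictScalars ℂ
          (lin a b j)) = u := by
        funext j
        change Polynomial.aeval τ (lin a b j) = _
        rw [aeval_lin, hab]
      rw [h6] at h5
      rw [← h5]
      have h7 : MvPolynomial.aeval (lin a b) (MvPolynomial.rename s G) = 0 := h1
      rw [h7]
      exact map_zero _
    have h4 : MvPolynomial.aeval (fun i => u0 (s i)) G = 0 := by
      apply Subtype.ext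
      have h2 : ((MvPolynomial.aeval (fun i => u0 (s i)) G : M0) : E) =
          MvPolynomial.aeval (fun i => (u0 (s i) : E)) G :=
        MvPolynomial.comp_aeval_apply (φ := M0.val) (fun i => u0 (s i)) G
      rw [h2]
      rw [MvPolynomial.aeval_rename] at h3
      have h5 : (fun i => (u0 (s i) : E)) = u ∘ s := funext fun i => hu0 (s i)
      rw [h5, h3]
      rfl
    exact (algebraicIndependent_iff.1 hs.1) G h4

/-- The value of a form at a multiple of a point. -/
theorem aeval_mul {E : Type} [Field E] [Algebra ℂ E] {n e : ℕ} {f : MvPolynomial (Fin (n + 1)) ℂ}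
    (hf : f.IsHomogeneous e) {x : Fin (n + 1) → E} (hx : MvPolynomial.aeval x f = 0) (c : E) :
    MvPolynomial.aeval (fun j => c * x j) f = 0 := by
  have h2 := val_smul hf c x
  have h3 : val x f = 0 := hx
  rw [h3, mul_zero] at h2
  exact h2

open Pool.Agent.TH145.SP in
/-- Varieties which correspond to smooth complete intersections. -/
theorem corr_ci {n w N : ℕ} (hw : 1 ≤ w) {A : Type} [Fintype A]
    {F : A → MvPolynomial (Fin (n + 1)) ℂ} {d : A → ℕ} (hd : ∀ a, (F a).IsHomogeneous (d a))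
    (hsm : SmoothCI F) (hN : N + n + 1 = ∑ a, d a) (hp : w + Fintype.card A = n)
    {L E : Type} [Field L] [Field E] [Algebra ℂ L]
    [Algebra ℂ E] [Algebra L E] [IsScalarTower ℂ L E] [FiniteDimensional L E]
    [Algebra.EssFiniteType ℂ L] (htr : Algebra.trdeg ℂ L = w) {x : Fin (n + 1) → E} (hx : x ≠ 0)
    (hxF : ∀ a, MvPolynomial.aeval x (F a) = 0)
    (halg : Algebra.IsAlgebraic (coords ℂ x) E) :
    (Module.finrank L E ≤ N → GeneralType ℂ L w) ∧
    (Module.finrank L E ≤ N + 1 ∨ (Module.finrank L E ≤ 2 * N + 1 ∧ ∀ a, d a ≤ N + 1) →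
      ∃ θ : (Fin w → Derivation ℂ L L) → L, IsPluri 1 θ ∧
        (∀ P : Place ℂ L, Divisorial w P → RegAt P θ) ∧ ∃ D, θ D ≠ 0) := by
  classical
  by_cases hcase : Module.finrank L E ≤ N + 1 ∨ ∀ a, d a ≤ N + 1
  · have h := core (N := N) hw htr hx halg (fun M0 u0 j0 c hc hu0 hu01 hgen0 htrM => by
      have hcoA : Algebra.IsAlgebraic (coords ℂ u0) M0 := by
        rw [coords_top hu01 hgen0]
        infer_instance
      obtain ⟨s, hs⟩ := Pool.Agent.TH145.GF.exists_coord_basis htrM hcoA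
      obtain ⟨ω, h1, h2, h3⟩ := exists_res hd hsm hN hp (x := u0) (fun a => by
        apply Subtype.ext
        have h2 : ((MvPolynomial.aeval u0 (F a) : M0) : E) =
            MvPolynomial.aeval (fun j => (u0 j : E)) (F a) :=
          MvPolynomial.comp_aeval_apply (φ := M0.val) u0 (F a)
        rw [h2, funext hu0, aeval_mul (hd a) (hxF a) c]
        rfl) hu01 hs.1
      exact ⟨ω, h1, h2, fun f P _ => h3 f P⟩) (fun a b τ j0 c s hc hab ha0 hb0 hb hs hdeg => by
      rcases hcase with hr | hda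
      · have hdeg2 : (minpoly L τ).natDegree ≤ Module.finrank L E := minpoly.natDegree_le τ
        omega
      · refine no_line_core htr ha0 hb0 hb hs (fun M0 w1 y0 hw1 hy01 hgen0 htrM hv => ?_)
        have hF0 : ∀ i, MvPolynomial.aeval y0 (F i) = 0 := fun i =>
          hv _ (restr_zero (x := fun j => c * x j) (hd i) (hda i)
            (aeval_mul (hd i) (hxF i) c) hab hdeg)
        have hcoA : Algebra.IsAlgebraic (coords ℂ y0) M0 := by
          rw [coords_top hy01 hgen0]
          infer_instance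
        obtain ⟨s', hs'⟩ := Pool.Agent.TH145.GF.exists_coord_basis htrM hcoA
        have hle : w1 ≤ w := dim_le hd hsm hp hF0 hy01 hs'.1
        obtain rfl : w1 = w := le_antisymm hle hw1
        obtain ⟨ω, h1, h2, h3⟩ := exists_res hd hsm hN hp (x := y0) hF0 hy01 hs'.1
        refine ⟨ω, h1, h2, fun P _ D hD => ?_⟩
        have h4 := h3 (fun _ => j0) P D hD
        simpa only [hy01, Finset.prod_const_one, one_mul] using h4)
    exact ⟨h.1, fun hr => h.2 (by omega)⟩
  · push Not at hcase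
    have hno : ¬ (Module.finrank L E ≤ N + 1 ∨
        (Module.finrank L E ≤ 2 * N + 1 ∧ ∀ a, d a ≤ N + 1)) := by
      rintro (h | ⟨-, h⟩)
      · omega
      · obtain ⟨a, ha⟩ := hcase.2
        have := h a
        omega
    exact ⟨fun hr => absurd hr (by omega), fun h => absurd h hno⟩

end Pool.Agent.Q58.CI
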