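import Pool.Agent.TH145.SP.Special

/-!
Residue forms on smooth complete intersections.
-/

set_option autoImplicit false
set_option linter.overlappingInstances false
set_option linter.unusedSectionVars false

open MvPolynomial FF Pool.Agent.W602.GT Pool.Agent.TH145.SP
open Pool.Agent.W603.LV Pool.Agent.TH145.GH

namespace Pool.Agent.Q58.CI

variable {Ω L : Type} [Field Ω] [Field L] [Algebra Ω L] {n p : ℕ}

/-- Alternating forms of top degree are canonical forms. -/
theorem pluri_of_alt (ω : (Derivation Ω L L) [⋀^Fin p]→ₗ[L] L) :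
    IsPluri 1 (fun D : Fin p → Derivation Ω L L => ω D) := by
  intro A D
  have h1 := (ω.compLinearMap (Fintype.linearCombination L D)).eq_smul_basis_det
    (Pi.basisFun L (Fin p))
  have h2 := congrArg (fun f => f A) h1
  have h3 : (ω.compLinearMap (Fintype.linearCombination L D)) A =
      ω (fun i => ∑ j, A i j • D j) := rfl
  have h4 : (ω.compLinearMap (Fintype.linearCombination L D)) (Pi.basisFun L (Fin p)) = ω D := by
    rw [AlternatingMap.compLinearMap_apply]
    congr 1
    funext i
    rw [Pi.basisFun_apply, Fintype.linearCombination_apply_single, one_smul]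
  simp only [h4] at h2
  rw [h3] at h2
  rw [pow_one]
  have h5 : (Pi.basisFun L (Fin p)).det A = A.det := Pi.basisFun_det_apply A
  have h6 : (ω D • (Pi.basisFun L (Fin p)).det) A = ω D * (Pi.basisFun L (Fin p)).det A := rfl
  rw [mul_comm, ← h5]
  exact h2.trans h6

variable {A : Type} [Fintype A] [DecidableEq A]

/-- Residue forms on smooth complete intersections. -/
theorem exists_res [IsAlgClosed Ω] [CharZero Ω] {F : A → MvPolynomial (Fin (n + 1)) Ω}
    {d : A → ℕ} (hd : ∀ a, (F a).IsHomogeneous (d a)) (hsm : SmoothCI F) {N : ℕ}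
    (hN : N + n + 1 = ∑ a, d a) (hp : p + Fintype.card A = n) {x : Fin (n + 1) → L}
    (hF : ∀ a, aeval x (F a) = 0) {j0 : Fin (n + 1)} (hj0 : x j0 = 1) {s : Fin p → Fin (n + 1)}
    (hs : AlgebraicIndependent Ω fun i => x (s i)) :
    ∃ ω : (Fin p → Derivation Ω L L) → L, IsPluri 1 ω ∧ (∃ D, ω D ≠ 0) ∧
      ∀ (f : Fin N → Fin (n + 1)) (P : Place Ω L), RegAt P (fun D => (∏ k, x (f k)) * ω D) := by
  have hcard : Fintype.card (Fin (p + 1) ⊕ A) = Fintype.card (Fin (n + 1)) := by
    rw [Fintype.card_sum, Fintype.card_fin, Fintype.card_fin]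
    omega
  obtain ⟨e⟩ : Nonempty (Fin (p + 1) ⊕ A ≃ Fin (n + 1)) := ⟨Fintype.equivOfCardEq hcard⟩
  have hx0 : x ≠ 0 := by
    intro h0
    rw [h0] at hj0
    exact zero_ne_one hj0
  obtain ⟨S, hS⟩ := exists_minor_ne hsm (l := j0) (by rw [hj0]; exact one_ne_zero) hF
  obtain ⟨τ, hτ, -⟩ := exists_tau hS
  have hd0 : ∀ a, 0 < d a := by
    intro a
    by_contra h0
    have h1 : d a = 0 := by omega
    have h2 := hτ a a
    rw [if_pos rfl] at h2
    apply zero_ne_one (α := L)
    rw [← h2]
    symm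
    refine Finset.sum_eq_zero fun j _ => ?_
    have h3 := hd a
    rw [h1] at h3
    have h4 : F a = C ((F a).coeff 0) := by
      exact (totalDegree_eq_zero_iff_eq_C.1 (Nat.le_zero.1 h3.totalDegree_le))
    rw [h4, pderiv_C, map_zero, zero_mul]
  obtain ⟨D0, hD0⟩ := exists_ders hs
  refine ⟨fun D => pform Ω e x τ D, pluri_of_alt _, ⟨D0, det_ne_zero hd hF hj0 hD0 e hτ⟩,
    fun f P => ?_⟩
  obtain ⟨lam, x', hlam, hlamP, hxx, hx', e1, he1⟩ := exists_scaled P hx0
  have hF' : ∀ a, aeval x' (F a) = 0 := by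
    intro a
    have h1 : aeval x (F a) = lam ^ d a * aeval x' (F a) := by
      rw [hxx, Pool.Agent.TH145.MG.aeval_smul (hd a)]
    rw [hF] at h1
    exact (mul_eq_zero.1 h1.symm).resolve_left (pow_ne_zero _ hlam)
  obtain ⟨S', hS'0, hS'⟩ := exists_unit_minor hsm P hx' (l := e1) (by
    rw [he1]; exact one_ne_zero) (by rw [he1, P.ord_one]) hF'
  obtain ⟨τ', hτ', hτP⟩ := exists_tau hS'0
  have hτP := hτP P hx' hS'
  intro D hD
  have hkey : (∏ k, x (f k)) * pform Ω e x τ D =
      (∏ k, x' (f k)) * (lam ^ N * (MM e (rows x D) τ).det) := by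
    have h1 : ∏ k, x (f k) = lam ^ N * ∏ k, x' (f k) := by
      rw [hxx]
      simp only [Pi.smul_apply, smul_eq_mul, Finset.prod_mul_distrib, Finset.prod_const,
        Finset.card_univ, Fintype.card_fin]
    rw [h1, pform_apply]
    ring
  change P.Reg ((∏ k, x (f k)) * pform Ω e x τ D)
  rw [hkey, det_scale hlam hxx hd0 hN e τ D]
  have hgr : ∀ a b, ∑ j, aeval x' (pderiv j (F a)) * (lam ^ (d b - 1) • τ b) j =
      if a = b then 1 else 0 := by
    intro a b
    have h1 : ∀ j, aeval x (pderiv j (F a)) = lam ^ (d a - 1) * aeval x' (pderiv j (F a)) := by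
      intro j
      rw [hxx, Pool.Agent.TH145.MG.aeval_smul ((hd a).pderiv)]
    have h2 := hτ a b
    simp only [h1] at h2
    have h3 : ∑ j, aeval x' (pderiv j (F a)) * (lam ^ (d b - 1) • τ b) j =
        lam ^ (d b - 1) * ((lam ^ (d a - 1))⁻¹ *
          ∑ j, lam ^ (d a - 1) * aeval x' (pderiv j (F a)) * τ b j) := by
      rw [Finset.mul_sum, Finset.mul_sum]
      refine Finset.sum_congr rfl fun j _ => ?_
      rw [Pi.smul_apply, smul_eq_mul]
      have := pow_ne_zero (d a - 1) hlam
      field_simp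
    rw [h3, h2]
    split_ifs with hab
    · subst hab
      rw [mul_one, mul_inv_cancel₀ (pow_ne_zero _ hlam)]
    · rw [mul_zero, mul_zero]
  rw [MM_det (fun i a => grad_rows hd hF' D i a) hτ' hgr]
  have h4 := Pool.Agent.TH145.GC.ge_det P (MM e (rows x' D) τ') (c := 0) (by
    intro i j
    rw [neg_zero]
    rcases i with i | a
    · refine Fin.cases ?_ (fun i => ?_) i
      · exact hx' _
      · exact hD i _ (hx' _)
    · exact hτP a _)
  rw [mul_zero, neg_zero] at h4
  have h5 : Ge P 0 (∏ k, x' (f k)) := by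
    induction' (Finset.univ : Finset (Fin N)) using Finset.induction_on with i s hi ih
    · rw [Finset.prod_empty]
      exact Or.inr (by rw [P.ord_one])
    · rw [Finset.prod_insert hi]
      have := (hx' (f i)).mul ih
      rwa [add_zero] at this
  have h6 := h5.mul h4
  rwa [add_zero] at h6

/-- The dimension of the subvarieties of a smooth complete intersection. -/
theorem dim_le [IsAlgClosed Ω] [CharZero Ω] {F : A → MvPolynomial (Fin (n + 1)) Ω}
    {d : A → ℕ} (hd : ∀ a, (F a).IsHomogeneous (d a)) (hsm : SmoothCI F)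
    (hp : p + Fintype.card A = n) {x : Fin (n + 1) → L}
    (hF : ∀ a, aeval x (F a) = 0) {j0 : Fin (n + 1)} (hj0 : x j0 = 1) {w : ℕ}
    {s : Fin w → Fin (n + 1)} (hs : AlgebraicIndependent Ω fun i => x (s i)) : w ≤ p := by
  obtain ⟨S, hS⟩ := exists_minor_ne hsm (l := j0) (by rw [hj0]; exact one_ne_zero) hF
  obtain ⟨τ, hτ, -⟩ := exists_tau hS
  obtain ⟨D, hD⟩ := exists_ders hs
  obtain ⟨R, hR⟩ : ∃ R : Matrix (Fin (w + 1)) (Fin (n + 1)) L, R = Matrix.of (rows x D) :=
    ⟨_, rfl⟩
  obtain ⟨T, hT⟩ : ∃ T : Matrix A (Fin (n + 1)) L, T = Matrix.of τ := ⟨_, rfl⟩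
  obtain ⟨G, hG⟩ : ∃ G : Matrix A (Fin (n + 1)) L,
    G = Matrix.of fun a j => aeval x (pderiv j (F a)) := ⟨_, rfl⟩
  have h1 : G * R.transpose = 0 := by
    ext a i
    rw [Matrix.mul_apply, hG, hR]
    exact grad_rows hd hF D i a
  have h2 : G * T.transpose = 1 := by
    ext a b
    rw [Matrix.mul_apply, hG, hT, Matrix.one_apply]
    exact hτ a b
  have h3 : G.rank = Fintype.card A := by
    refine le_antisymm G.rank_le_card_height ?_
    have h4 := Matrix.rank_mul_le_left G T.transpose
    rw [h2, Matrix.rank_one] at h4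
    exact h4
  have h5 : LinearIndependent L R.row := by
    rw [Fintype.linearIndependent_iff]
    intro v hv
    have h6 : ∀ l, ∑ i, v i * rows x D i l = 0 := by
      intro l
      have h7 := congrFun hv l
      rw [Finset.sum_apply] at h7
      rw [hR] at h7
      exact h7
    have h8 : v 0 = 0 := by
      have h9 := h6 j0
      rw [Fin.sum_univ_succ] at h9
      have h10 : ∀ i : Fin w, rows x D i.succ j0 = 0 := by
        intro i
        change D i (x j0) = 0
        rw [hj0, Derivation.map_one_eq_zero]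
      have h11 : rows x D 0 j0 = 1 := hj0
      simp only [h10, h11, mul_zero, Finset.sum_const_zero, add_zero, mul_one] at h9
      exact h9
    intro i
    refine Fin.cases h8 (fun i => ?_) i
    have h9 := h6 (s i)
    rw [Fin.sum_univ_succ, h8, zero_mul, zero_add] at h9
    have h10 : ∀ k : Fin w, rows x D k.succ (s i) = if k = i then 1 else 0 := fun k => hD k i
    simp only [h10, mul_ite, mul_one, mul_zero, Finset.sum_ite_eq', Finset.mem_univ,
      if_true] at h9
    exact h9
  have h12 : R.transpose.rank = w + 1 := by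
    rw [Matrix.rank_transpose, h5.rank_matrix, Fintype.card_fin]
  have h13 := Matrix.rank_add_rank_le_card_of_mul_eq_zero h1
  rw [h3, h12, Fintype.card_fin] at h13
  omega

end Pool.Agent.Q58.CI
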